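import Pool.Agent.Y146.InjL.Rel
import Pool.Agent.H914R2.GFrob
import Pool.Agent.H447R3.NumB
import Pool.Agent.H914R2.CPart

/-!
# Decompositions from an endomorphism
-/

open CategoryTheory AlgebraicGeometry Finset TensorProduct Polynomial

universe u v w

namespace Pool.Agent.Y146.InjL

open Pool.Agent.H914 Pool.Agent.H914.VarClass Pool.Agent.H914.VarClass.Obj
  Pool.Agent.H914.WeilCohomology Pool.Agent.W550.B

variable {k : Type u} [Field k] {𝒱 : VarClass k} {ops : CycleOps 𝒱}
  {W : WeilCohomology.{u, v} ops} {X Y Q : 𝒱.Obj} {L : Subfield W.K} {τ : L →+* L}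
  {F : X ⟶ X} {q : ℕ}

lemma corr_sub (c d : W.H (X.prod Y)) : W.corr (c - d) = W.corr c - W.corr d := by
  ext a; simp [sub_mul]

namespace IsTateOver

lemma q_ne (h : IsTateOver W L τ X F q) : (q : W.K) ≠ 0 := by
  have := h.one_lt
  exact_mod_cast (show q ≠ 0 by omega)

lemma q_neL (h : IsTateOver W L τ X F q) : (q : L) ≠ 0 := by
  intro h0
  apply h.q_ne
  have := congrArg (fun x : L => (x : W.K)) h0
  simpa using this

lemma q_inj (h : IsTateOver W L τ X F q) {i j : ℕ} (hij : (q : L) ^ i = (q : L) ^ j) :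
    i = j := by
  have h1 : (q : W.K) ^ i = (q : W.K) ^ j := by
    have := congrArg (fun x : L => (x : W.K)) hij
    simpa using this
  have h2 : q ^ i = q ^ j := by exact_mod_cast h1
  exact Nat.pow_right_injective h.one_lt h2

lemma map_proj (F : X ⟶ X) (i : ℕ) (a : W.H X) :
    W.map F (proj (W.isInternal X) i a) = proj (W.isInternal X) i (W.map F a) := by
  refine gr_induction (W.isInternal X) (p := fun a =>
    W.map F (proj (W.isInternal X) i a) = proj (W.isInternal X) i (W.map F a)) ?_ ?_ a
  · intro j a ha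
    by_cases hij : j = i
    · subst hij
      rw [proj_same _ ha, proj_same _ (W.map_mem F ha)]
    · rw [proj_ne _ ha hij, proj_ne _ (W.map_mem F ha) hij, map_zero]
  · intro a b ha hb
    rw [map_add, map_add, ha, hb, map_add, map_add]

lemma sum_proj_apply (a : W.H X) :
    ∑ i ∈ range (2 * X.dim + 1), proj (W.isInternal X) i a = a := by
  have hsum := sum_proj (W.isInternal X) (N := 2 * X.dim + 1)
    (fun i hi => W.gr_eq_bot X i (by omega))
  have h2 := congrArg (fun F => F a) hsum
  simpa only [LinearMap.sum_apply, Module.End.one_apply] using h2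

lemma exists_degree (h : IsTateOver W L τ X F q) {α : L} {x : W.H X} (hx : x ≠ 0)
    (hα : W.map F x = (α : W.K) • x) : ∃ i, τ α * α = (q : L) ^ i ∧ i ≤ 2 * X.dim := by
  have h1 : ∃ i, proj (W.isInternal X) i x ≠ 0 := by
    by_contra hcon
    push Not at hcon
    apply hx
    rw [← sum_proj_apply x]
    exact Finset.sum_eq_zero (fun i _ => hcon i)
  obtain ⟨i, hi⟩ := h1
  refine ⟨i, h.weights i α _ (proj_mem _ i x) hi ?_, ?_⟩
  · rw [map_proj, hα, map_smul]
  · by_contra hcon
    apply hi
    have h2 := proj_mem (W.isInternal X) i x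
    rw [W.gr_eq_bot X i (by omega)] at h2
    exact (Submodule.mem_bot _).1 h2

lemma mem_gr (h : IsTateOver W L τ X F q) {α : L} {x : W.H X}
    (hα : W.map F x = (α : W.K) • x) {i : ℕ} (hi : τ α * α = (q : L) ^ i) : x ∈ W.gr X i := by
  have h1 : ∀ j, j ≠ i → proj (W.isInternal X) j x = 0 := by
    intro j hj
    by_contra hne
    apply hj
    apply h.q_inj
    rw [← hi, h.weights j α _ (proj_mem _ j x) hne]
    rw [map_proj, hα, map_smul]
  rw [← sum_proj_apply x]
  refine Submodule.sum_mem _ (fun j _ => ?_)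
  by_cases hj : j = i
  · subst hj
    exact proj_mem _ _ _
  · rw [h1 j hj]
    exact Submodule.zero_mem _

lemma eig_induction (h : IsTateOver W L τ X F q) {p : W.H X → Prop}
    (heig : ∀ (α : L) x, W.map F x = (α : W.K) • x → p x)
    (hadd : ∀ a b, p a → p b → p (a + b)) (a : W.H X) : p a := by
  have ha : a ∈ ⨆ α : L, Module.End.eigenspace (W.map F).toLinearMap (α : W.K) := by
    rw [h.diagonalizable]; trivial
  refine Submodule.iSup_induction _ (motive := p) ha (fun μ x hx => ?_) ?_ hadd
  · exact heig μ x (Module.End.mem_eigenspace_iff.1 hx)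
  · exact heig 0 0 (by rw [map_zero, smul_zero])

lemma tr_eig (h : IsTateOver W L τ X F q) {α β : W.K} {x y : W.H X}
    (hx : W.map F x = α • x) (hy : W.map F y = β • y) (hne : W.tr X (x * y) ≠ 0) :
    α * β = (q : W.K) ^ X.dim := by
  have h1 := h.degree (x * y)
  rw [map_mul (W.map F), hx, hy, smul_mul_smul_comm, map_smul, smul_eq_mul] at h1
  exact mul_right_cancel₀ hne h1

lemma ne_zero (h : IsTateOver W L τ X F q) {α : L} {i : ℕ} (hi : τ α * α = (q : L) ^ i) :
    α ≠ 0 := by
  rintro rfl
  rw [mul_zero] at hi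
  exact pow_ne_zero _ h.q_neL hi.symm

lemma tau_tau (h : IsTateOver W L τ X F q) {α : L} {i : ℕ} (hi : τ α * α = (q : L) ^ i) :
    τ (τ α) = α := by
  have h1 := congrArg τ hi
  rw [map_mul, map_pow, map_natCast, ← hi, mul_comm (τ α) α] at h1
  exact mul_right_cancel₀ (a := τ (τ α)) (by
    rw [Ne, map_eq_zero]; exact h.ne_zero hi) h1

lemma aeval_eig {α : W.K} {x : W.H X} (hα : W.map F x = α • x) (g : Polynomial W.K) :
    Polynomial.aeval (W.map F).toLinearMap g x = g.eval α • x := by
  by_cases hx : x = 0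
  · rw [hx, map_zero, smul_zero]
  · exact Module.End.aeval_apply_of_hasEigenvector
      ⟨Module.End.mem_eigenspace_iff.2 hα, hx⟩

/-- The pull-back is injective. -/
lemma map_surj (h : IsTateOver W L τ X F q) (a : W.H X) : ∃ b, W.map F b = a := by
  refine h.eig_induction (p := fun a => ∃ b, W.map F b = a) ?_ ?_ a
  · intro α x hx
    by_cases hx0 : x = 0
    · exact ⟨0, by rw [map_zero, hx0]⟩
    · obtain ⟨i, hi, -⟩ := h.exists_degree hx0 hx
      have hα : (α : W.K) ≠ 0 := by
        intro h0
        exact h.ne_zero hi (Subtype.ext h0)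
      exact ⟨(α : W.K)⁻¹ • x, by rw [map_smul, hx, smul_smul, inv_mul_cancel₀ hα, one_smul]⟩
  · rintro a b ⟨a', rfl⟩ ⟨b', rfl⟩
    exact ⟨a' + b', map_add _ _ _⟩

/-- Operators between eigenspaces which are compatible with the weights are algebraic. -/
lemma alg_of_eig (h : IsTateOver W L τ X F q) {α : L} {d : ℕ} (hd : τ α * α = (q : L) ^ d)
    (hd2 : d ≤ 2 * X.dim) {Z : Module.End W.K (W.H X)}
    (h1 : ∀ a, W.map F (Z a) = ((q : W.K) ^ X.dim * (α : W.K)⁻¹) • Z a)
    (h2 : ∀ a, Z (W.map F a) = (τ α : W.K) • Z a)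
    (h3 : ∀ i, i ≠ d → ∀ a ∈ W.gr X i, Z a = 0) (h4 : ∀ a, Z a ∈ W.gr X (2 * X.dim - d)) :
    Z ∈ KOp W X X ((X.dim : ℤ) - d) := by
  have hα : (α : W.K) ≠ 0 := by
    intro h0
    exact h.ne_zero hd (Subtype.ext h0)
  obtain ⟨γ, hγ⟩ := Pool.Agent.H447.exists_corr Z
  have hdK : (τ α : W.K) * (α : W.K) = (q : W.K) ^ d := by
    have := congrArg (fun x : L => (x : W.K)) hd
    simpa using this
  have hτα : (τ α : W.K) ≠ 0 := by
    intro h0
    rw [h0, zero_mul] at hdK
    exact pow_ne_zero _ h.q_ne hdK.symm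
  have hgr : γ ∈ W.gr (X.prod X) (2 * (2 * X.dim - d)) := by
    apply Pool.Agent.H447.mem_gr_of_isHom
    rw [hγ]
    intro t a ha
    by_cases ht : t = d
    · subst ht
      rw [show (d : ℤ) + 2 * (((2 * X.dim - d : ℕ) : ℤ) - X.dim) = ((2 * X.dim - d : ℕ) : ℤ) by
        omega, grZ_natCast]
      exact h4 a
    · have h0 : Z a = 0 := by
        by_cases htn : 0 ≤ t
        · lift t to ℕ using htn
          rw [grZ_natCast] at ha
          exact h3 t (by omega) a ha
        · rw [grZ_of_neg (by omega)] at ha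
          rw [(Submodule.mem_bot _).1 ha, map_zero]
      rw [h0]
      exact Submodule.zero_mem _
  have hF : W.map (squareMap F) γ = (q : W.K) ^ (2 * X.dim - d) • γ := by
    rw [← sub_eq_zero]
    apply corr_inj
    rw [corr_sub, corr_smul, sub_eq_zero]
    apply LinearMap.ext
    intro a
    obtain ⟨b, rfl⟩ := h.map_surj a
    rw [corr_squareMap h.degree, LinearMap.smul_apply, hγ, h1, h2, smul_smul, smul_smul]
    congr 1
    have e1 : (q : W.K) ^ X.dim * (q : W.K) ^ X.dim =
        (q : W.K) ^ (2 * X.dim - d) * (q : W.K) ^ d := by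
      rw [← pow_add, ← pow_add]
      congr 1
      omega
    rw [← mul_assoc, e1, ← hdK]
    field_simp
  have h5 := h.tate _ γ hgr hF
  rw [mem_KOp_iff]
  refine ⟨γ, ?_, hγ⟩
  rw [show (X.dim : ℤ) + ((X.dim : ℤ) - d) = ((2 * X.dim - d : ℕ) : ℤ) by omega]
  rw [spanCycles_eq]
  exact h5

/-- **The decomposition given by the endomorphism.** -/
theorem hasFrm (h : IsTateOver W L τ X F q) : HasFrm W τ X := by
  classical
  set f : Module.End W.K (W.H X) := (W.map F).toLinearMap with hf
  have hfa : ∀ a, f a = W.map F a := fun _ => rfl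
  have hrop : ROp W X 0 f := rop_map F
  -- the eigenvalues
  have hfin : {α : L | ∃ x, x ≠ 0 ∧ W.map F x = (α : W.K) • x}.Finite := by
    refine Set.Finite.subset (Set.Finite.preimage (f := fun α : L => (α : W.K))
      (fun a _ b _ hab => Subtype.ext hab) f.finite_hasEigenvalue) ?_
    rintro α ⟨x, hx, hα⟩
    exact Module.End.hasEigenvalue_of_hasEigenvector
      ⟨Module.End.mem_eigenspace_iff.2 hα, hx⟩
  set S0 : Finset L := hfin.toFinset with hS0
  have hmem : ∀ {α}, α ∈ S0 ↔ ∃ x, x ≠ 0 ∧ W.map F x = (α : W.K) • x := by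
    intro α
    rw [hS0, Set.Finite.mem_toFinset, Set.mem_ofPred_eq]
  have hdeg : ∀ α : L, ∃ i, α ∈ S0 → τ α * α = (q : L) ^ i ∧ i ≤ 2 * X.dim := by
    intro α
    by_cases hα : α ∈ S0
    · obtain ⟨x, hx, hx'⟩ := hmem.1 hα
      obtain ⟨i, hi⟩ := h.exists_degree hx hx'
      exact ⟨i, fun _ => hi⟩
    · exact ⟨0, fun h' => absurd h' hα⟩
  choose d hd using hdeg
  set S : Finset L := S0 ∪ S0.image τ with hS
  have hττ : ∀ α ∈ S, τ (τ α) = α := by
    intro α hα
    rcases Finset.mem_union.1 hα with h1 | h1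
    · exact h.tau_tau (hd α h1).1
    · obtain ⟨β, hβ, rfl⟩ := Finset.mem_image.1 h1
      rw [h.tau_tau (hd β hβ).1]
  have hτS : ∀ α ∈ S, τ α ∈ S := by
    intro α hα
    rcases Finset.mem_union.1 hα with h1 | h1
    · exact Finset.mem_union_right _ (Finset.mem_image_of_mem _ h1)
    · obtain ⟨β, hβ, rfl⟩ := Finset.mem_image.1 h1
      rw [h.tau_tau (hd β hβ).1]
      exact Finset.mem_union_left _ hβ
  -- the projectors
  set g : S → Polynomial L := fun α => Lagrange.basis S id α with hg
  have hgeval : ∀ (α : S) (β : L), β ∈ S → (g α).eval β = if β = α then 1 else 0 := by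
    intro α β hβ
    split_ifs with hαβ
    · rw [hαβ]
      exact Lagrange.eval_basis_self (v := id) (Set.injOn_id _) α.2
    · exact Lagrange.eval_basis_of_ne (v := id) (fun h' => hαβ h'.symm) hβ
  set e : S → Module.End W.K (W.H X) :=
    fun α => Polynomial.aeval f ((g α).map L.subtype) with he
  set e' : S → Module.End W.K (W.H X) :=
    fun α => Polynomial.aeval f (((g α).map τ).map L.subtype) with he'
  have heig : ∀ (α : S) {β : L} (_ : β ∈ S0) {x : W.H X}, W.map F x = (β : W.K) • x →
      e α x = if β = α then x else 0 := by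
    intro α β hβ x hx
    simp only [he]
    rw [IsTateOver.aeval_eig hx]
    have h1 : ((g α).map L.subtype).eval (β : W.K) = ((g α).eval β : L) := by
      rw [Polynomial.eval_map, ← L.coe_subtype, Polynomial.eval₂_at_apply]
    rw [h1, hgeval α β (Finset.mem_union_left _ hβ)]
    split_ifs
    · rw [L.coe_one, one_smul]
    · rw [L.coe_zero, zero_smul]
  have heig' : ∀ (α : S) {β : L} (_ : β ∈ S0) {x : W.H X}, W.map F x = (β : W.K) • x →
      e' α x = if β = τ α then x else 0 := by
    intro α β hβ x hx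
    simp only [he']
    rw [IsTateOver.aeval_eig hx]
    have hβS : β ∈ S := Finset.mem_union_left _ hβ
    have h1 : (((g α).map τ).map L.subtype).eval (β : W.K) = (((g α).map τ).eval β : L) := by
      rw [Polynomial.eval_map L.subtype, ← L.coe_subtype, Polynomial.eval₂_at_apply]
    have h2 : ((g α).map τ).eval β = τ ((g α).eval (τ β)) := by
      conv_lhs => rw [← hττ β hβS]
      rw [Polynomial.eval_map, Polynomial.eval₂_at_apply]
    rw [h1, h2, hgeval α (τ β) (hτS β hβS)]
    by_cases hβα : β = τ α
    · rw [if_pos hβα, if_pos (by rw [hβα, hττ α α.2]), map_one, L.coe_one, one_smul]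
    · rw [if_neg hβα, if_neg (fun h3 => hβα (by rw [← h3, hττ β hβS])), map_zero, L.coe_zero,
        zero_smul]
  -- equality of operators
  have hext : ∀ {φ ψ : Module.End W.K (W.H X)},
      (∀ β ∈ S0, ∀ x, W.map F x = (β : W.K) • x → φ x = ψ x) → φ = ψ := by
    intro φ ψ hφψ
    apply LinearMap.ext
    intro a
    refine h.eig_induction (p := fun a => φ a = ψ a) ?_ ?_ a
    · intro α x hx
      by_cases hx0 : x = 0
      · rw [hx0, map_zero, map_zero]
      · exact hφψ α (hmem.2 ⟨x, hx0, hx⟩) x hx
    · intro a b ha hb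
      rw [map_add, map_add, ha, hb]
  have htwist : ∀ α, LRel W τ X (e α) (e' α) := fun α => LRel.aeval (τ := τ) hrop (g α)
  -- the adjoints
  have hadj : ∀ α, ∃ ψ : Module.End W.K (W.H X),
      ∀ a b, W.tr X (e α a * b) = W.tr X (a * ψ b) := by
    intro α
    obtain ⟨ψ, -, hψ⟩ := KOp.exists_adjoint (htwist α).mem_left
    exact ⟨ψ, hψ⟩
  choose et het using hadj
  refine IsFrm.hasFrm (ι := S) (e := e) (e' := e') (et := et)
    (m := fun α => (X.dim : ℤ) - d α) ⟨?_, htwist, het, ?_⟩
  · apply hext
    intro β hβ x hx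
    rw [LinearMap.sum_apply, Finset.sum_congr rfl (fun α _ => heig α hβ hx),
      Finset.sum_eq_single (⟨β, Finset.mem_union_left _ hβ⟩ : S), if_pos rfl,
      Module.End.one_apply]
    · intro α _ hα
      rw [if_neg]
      intro h1
      exact hα (Subtype.ext h1.symm)
    · intro h1
      exact absurd (Finset.mem_univ _) h1
  · intro α A
    by_cases hα : (α : L) ∈ S0
    swap
    · have h0 : e α = 0 := by
        apply hext
        intro β hβ x hx
        rw [heig α hβ hx, if_neg, LinearMap.zero_apply]
        rintro rfl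
        exact hα hβ
      have h1 : et α = 0 := by
        apply LinearMap.ext
        intro b
        rw [LinearMap.zero_apply]
        apply nondeg_right
        intro a
        rw [← het, h0, LinearMap.zero_apply, zero_mul, map_zero]
      rw [h1, zero_mul, zero_mul]
      exact Submodule.zero_mem _
    obtain ⟨hd1, hd2⟩ := hd α hα
    have hα0 : ((α : L) : W.K) ≠ 0 := by
      intro h0
      exact h.ne_zero hd1 (Subtype.ext h0)
    have heF : ∀ a, e α (W.map F a) = ((α : L) : W.K) • e α a := by
      intro a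
      have h1 : e α * f = ((α : L) : W.K) • e α := by
        apply hext
        intro β hβ x hx
        rw [Module.End.mul_apply, hfa, hx, map_smul, LinearMap.smul_apply, heig α hβ hx]
        split_ifs with h2
        · rw [h2]
        · rw [smul_zero, smul_zero]
      exact congrArg (fun φ => φ a) h1
    have heF' : ∀ a, e' α (W.map F a) = (τ α : W.K) • e' α a := by
      intro a
      have h1 : e' α * f = (τ α : W.K) • e' α := by
        apply hext
        intro β hβ x hx
        rw [Module.End.mul_apply, hfa, hx, map_smul, LinearMap.smul_apply, heig' α hβ hx]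
        split_ifs with h2
        · rw [h2]
        · rw [smul_zero, smul_zero]
      exact congrArg (fun φ => φ a) h1
    have hFe' : ∀ a, W.map F (e' α a) = (τ α : W.K) • e' α a := by
      intro a
      have h1 : f * e' α = (τ α : W.K) • e' α := by
        apply hext
        intro β hβ x hx
        rw [Module.End.mul_apply, LinearMap.smul_apply, heig' α hβ hx]
        split_ifs with h2
        · rw [hfa, hx, h2]
        · rw [map_zero, smul_zero]
      exact congrArg (fun φ => φ a) h1
    have hFet : ∀ b, W.map F (et α b) =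
        ((q : W.K) ^ X.dim * ((α : L) : W.K)⁻¹) • et α b := by
      intro b
      rw [← sub_eq_zero]
      apply nondeg_right
      intro a
      obtain ⟨a, rfl⟩ := h.map_surj a
      rw [mul_sub, map_sub, ← map_mul, h.degree, ← het, mul_smul_comm, map_smul, ← het, heF,
        smul_mul_assoc, map_smul, smul_eq_mul, smul_eq_mul]
      field_simp
      ring
    have hβ : τ ((q : L) ^ X.dim * (α : L)⁻¹) * ((q : L) ^ X.dim * (α : L)⁻¹) =
        (q : L) ^ (2 * X.dim - d α) := by
      have hα1 : (α : L) ≠ 0 := h.ne_zero hd1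
      have hτα1 : τ (α : L) ≠ 0 := by rwa [Ne, map_eq_zero]
      rw [map_mul, map_pow, map_natCast, map_inv₀]
      have e1 : (q : L) ^ X.dim * (q : L) ^ X.dim =
          (q : L) ^ (2 * X.dim - d α) * (q : L) ^ (d α) := by
        rw [← pow_add, ← pow_add]
        congr 1
        omega
      rw [← hd1] at e1
      field_simp
      linear_combination e1
    refine h.alg_of_eig hd1 hd2 ?_ ?_ ?_ ?_
    · intro a
      simp only [Module.End.mul_apply]
      exact hFet _
    · intro a
      simp only [Module.End.mul_apply]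
      rw [heF', map_smul, map_smul]
    · intro i hi a ha
      have h1 := hom0 (htwist α).mem_right ha
      have h2 : e' α a ∈ W.gr X (d α) := by
        refine h.mem_gr (hFe' a) ?_
        rw [hττ α α.2, mul_comm]
        exact hd1
      have h3 : e' α a = 0 := by
        have h4 := proj_same (W.isInternal X) h1
        rw [proj_ne (W.isInternal X) h2 (Ne.symm hi)] at h4
        exact h4.symm
      simp only [Module.End.mul_apply]
      rw [h3, map_zero, map_zero]
    · intro a
      simp only [Module.End.mul_apply]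
      refine h.mem_gr (α := (q : L) ^ X.dim * (α : L)⁻¹) ?_ hβ
      rw [hFet]
      congr 1

end IsTateOver

end Pool.Agent.Y146.InjL
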