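import Pool.Agent.Y146.InjL.Stm
import Pool.Agent.H914R2.CPart

/-!
# Varieties whose square satisfies the Tate conjecture, and injectivity with coefficients
-/

open CategoryTheory AlgebraicGeometry

universe u v

namespace Pool.Agent.Y146.InjL

open Pool.Agent.H914 Pool.Agent.H914.VarClass Pool.Agent.H914.VarClass.Obj
  Pool.Agent.H914.WeilCohomology

variable {k : Type u} [Field k] {𝒱 : VarClass k} {ops : CycleOps 𝒱}

/-- The endomorphism `F` of `X` has the properties of the Frobenius endomorphism, over the finite
field with `q` elements, of a variety `X` such that the Tate conjecture holds for `X × X`, and `L` is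
a subfield of the coefficient field which contains the eigenvalues of `F`; the endomorphism `τ` of
`L` plays the role of the complex conjugation. -/
structure IsTateOver (W : WeilCohomology.{u, v} ops) (L : Subfield W.K) (τ : L →+* L)
    (X : 𝒱.Obj) (F : X ⟶ X) (q : ℕ) : Prop where
  /-- the number `q` is at least two -/
  one_lt : 1 < q
  /-- the endomorphism `F` has degree `q ^ dim X` -/
  degree : ∀ a, W.tr X (W.map F a) = (q : W.K) ^ X.dim * W.tr X a
  /-- the cohomology is the sum of the eigenspaces of `F` for eigenvalues in `L` -/
  diagonalizable : ⨆ α : L, Module.End.eigenspace (W.map F).toLinearMap (α : W.K) = ⊤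
  /-- the Riemann hypothesis: all eigenvalues `α` of `F` on `H^i(X)` satisfy `τ(α) α = q ^ i` -/
  weights : ∀ (i : ℕ) (α : L) (x : W.H X), x ∈ W.gr X i → x ≠ 0 → W.map F x = (α : W.K) • x →
    τ α * α = (q : L) ^ i
  /-- the Tate conjecture for `X × X`: the classes of degree `2 j` on which `F × F` acts as the
  multiplication by `q ^ j` are linear combinations of classes of algebraic cycles -/
  tate : ∀ j, ∀ c ∈ W.gr (X.prod X) (2 * j), W.map (squareMap F) c = (q : W.K) ^ j • c →
    c ∈ Submodule.span W.K (algClasses W (X.prod X) j)

lemma HasTateSquare.isTateOver {W : WeilCohomology.{u, v} ops} {T : ConjField W.K} {X : 𝒱.Obj}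
    {F : X ⟶ X} {q : ℕ} (h : HasTateSquare W T X F q) : IsTateOver W T.L T.τ X F q where
  one_lt := h.one_lt
  degree := h.degree
  diagonalizable := h.diagonalizable
  weights := h.weights
  tate j c hc hc' := by
    have h1 := h.tate j c hc hc'
    rwa [spanCycles_eq] at h1

end Pool.Agent.Y146.InjL
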