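import Mathlib

/-!
# Linear algebra over the rational numbers inside a field of characteristic zero
-/

open Finset

namespace Pool.Agent.Y146.InjL

variable {K : Type*} [Field K] [CharZero K] {V : Type*} [AddCommGroup V] [Module K V]

/-- A finite family contains a subfamily which is independent over the rational numbers and
generates the same rational subspace. -/
theorem exists_rat_basis {m : Type*} [Fintype m] (x : m → V) :
    ∃ (δ : ℕ) (g : Fin δ → m) (q : m → Fin δ → ℚ),
      (∀ a, x a = ∑ k, ((q a k : ℚ) : K) • x (g k)) ∧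
      ∀ c : Fin δ → ℚ, ∑ k, ((c k : ℚ) : K) • x (g k) = 0 → c = 0 := by
  classical
  let _ : Module ℚ V := Module.compHom V (algebraMap ℚ K)
  have hsm : ∀ (r : ℚ) (v : V), r • v = ((r : ℚ) : K) • v := fun r v => rfl
  obtain ⟨b, hb, hspan, hli⟩ := exists_linearIndependent ℚ (Set.range x)
  have hbf : b.Finite := (Set.finite_range x).subset hb
  have _ : Fintype b := hbf.fintype
  set c := Fintype.equivFin b with hc
  have hg : ∀ k : b, ∃ a, x a = k := fun k => hb k.2
  choose g hg using hg
  have hmem : ∀ a, ∃ q : Fin (Fintype.card b) → ℚ,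
      x a = ∑ k, ((q k : ℚ) : K) • x (g (c.symm k)) := by
    intro a
    have h1 : x a ∈ Submodule.span ℚ b := by
      rw [hspan]
      exact Submodule.subset_span ⟨a, rfl⟩
    have h2 : b = Set.range (fun k : Fin (Fintype.card b) => ((c.symm k : b) : V)) := by
      ext v
      constructor
      · intro hv
        exact ⟨c ⟨v, hv⟩, by simp⟩
      · rintro ⟨k, rfl⟩
        exact (c.symm k).2
    rw [h2] at h1
    obtain ⟨q, hq⟩ := (Submodule.mem_span_range_iff_exists_fun ℚ).1 h1
    refine ⟨q, ?_⟩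
    rw [← hq]
    refine Finset.sum_congr rfl fun k _ => ?_
    rw [hg, hsm]
  choose q hq using hmem
  refine ⟨Fintype.card b, fun k => g (c.symm k), q, hq, fun r hr => ?_⟩
  have h3 : LinearIndependent ℚ (fun k : Fin (Fintype.card b) => ((c.symm k : b) : V)) :=
    hli.comp c.symm c.symm.injective
  rw [Fintype.linearIndependent_iff] at h3
  funext k
  refine h3 r ?_ k
  rw [← hr]
  refine Finset.sum_congr rfl fun k _ => ?_
  rw [hg, hsm]

/-- **Descent of linear relations.** Let `A` be a set of semilinear maps fixing the vectors `x i`.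
If there is a nontrivial relation between the `x i` with coefficients in the field `L`, which is
stable under the endomorphisms of the coefficients, then there is one with coefficients in `L`
fixed by all endomorphisms. -/
theorem exists_fixed_relation (L : Subfield K) (T : Set (K →+* K)) (hTL : ∀ σ ∈ T, ∀ a ∈ L, σ a ∈ L)
    {n : ℕ} (x : Fin n → V)
    (hT : ∀ σ ∈ T, ∀ c : Fin n → K, ∑ i, c i • x i = 0 → ∑ i, σ (c i) • x i = 0)
    {c : Fin n → K} (hcL : ∀ i, c i ∈ L) (hc : ∑ i, c i • x i = 0) (hc0 : c ≠ 0) :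
    ∃ c' : Fin n → K, (∀ i, c' i ∈ L) ∧ (∀ σ ∈ T, ∀ i, σ (c' i) = c' i) ∧
      ∑ i, c' i • x i = 0 ∧ c' ≠ 0 := by
  classical
  -- a relation with minimal support
  obtain ⟨d, ⟨hdL, hd, hd0⟩, hmin⟩ : ∃ d : Fin n → K,
      ((∀ i, d i ∈ L) ∧ ∑ i, d i • x i = 0 ∧ d ≠ 0) ∧
      ∀ d' : Fin n → K, ((∀ i, d' i ∈ L) ∧ ∑ i, d' i • x i = 0 ∧ d' ≠ 0) →
        (univ.filter fun i => d i ≠ 0).card ≤ (univ.filter fun i => d' i ≠ 0).card := by
    have hne : {d : Fin n → K | (∀ i, d i ∈ L) ∧ ∑ i, d i • x i = 0 ∧ d ≠ 0}.Nonempty :=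
      ⟨c, hcL, hc, hc0⟩
    obtain ⟨d, hd, hmin⟩ := (measure (fun d : Fin n → K =>
      (univ.filter fun i => d i ≠ 0).card)).wf.has_min _ hne
    exact ⟨d, hd, fun d' hd' => not_lt.1 (hmin d' hd')⟩
  obtain ⟨i0, hi0⟩ : ∃ i, d i ≠ 0 := by
    by_contra hcon
    push Not at hcon
    exact hd0 (funext hcon)
  refine ⟨fun i => (d i0)⁻¹ * d i, fun i => L.mul_mem (L.inv_mem (hdL _)) (hdL _), ?_, ?_, ?_⟩
  · intro σ hσ
    by_contra hcon
    push Not at hcon
    obtain ⟨i1, hi1⟩ := hcon
    have h1 : ∑ i, ((d i0)⁻¹ * d i) • x i = 0 := by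
      simp only [mul_smul]
      rw [← Finset.smul_sum, hd, smul_zero]
    have h2 := hT σ hσ _ h1
    have h3 := hmin (fun i => σ ((d i0)⁻¹ * d i) - (d i0)⁻¹ * d i) ⟨fun i =>
      L.sub_mem (hTL σ hσ _ (L.mul_mem (L.inv_mem (hdL _)) (hdL _)))
        (L.mul_mem (L.inv_mem (hdL _)) (hdL _)), ?_, ?_⟩
    · have h4 : (univ.filter fun i => σ ((d i0)⁻¹ * d i) - (d i0)⁻¹ * d i ≠ 0).card <
          (univ.filter fun i => d i ≠ 0).card := by
        apply Finset.card_lt_card
        refine ⟨?_, ?_⟩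
        · intro i hi
          rw [Finset.mem_filter] at hi ⊢
          refine ⟨hi.1, fun h0 => hi.2 ?_⟩
          rw [h0, mul_zero, map_zero, sub_zero]
        · intro hsub
          have h5 := hsub (Finset.mem_filter.2 ⟨Finset.mem_univ i0, hi0⟩)
          rw [Finset.mem_filter] at h5
          apply h5.2
          rw [inv_mul_cancel₀ hi0, map_one, sub_self]
      omega
    · simp only [sub_smul, Finset.sum_sub_distrib]
      rw [h1, h2, sub_self]
    · intro h0
      exact hi1 (sub_eq_zero.1 (congrFun h0 i1))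
  · simp only [mul_smul]
    rw [← Finset.smul_sum, hd, smul_zero]
  · intro h0
    have := congrFun h0 i0
    simp only [Pi.zero_apply] at this
    rw [inv_mul_cancel₀ hi0] at this
    exact one_ne_zero this

end Pool.Agent.Y146.InjL
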