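import Pool.Agent.Y146.InjL.Base
import Pool.Agent.Y146.InjL.LinQ
import Pool.Agent.H281R3.HT.FDef
import Pool.Agent.H447R3.DegDefs

/-!
# Numerically trivial cycles and conjugate blocks
-/

open CategoryTheory AlgebraicGeometry Finset

universe u v w

namespace Pool.Agent.Y146.InjL

open Pool.Agent.H914 Pool.Agent.H914.VarClass Pool.Agent.H914.VarClass.Obj
  Pool.Agent.H914.WeilCohomology Pool.Agent.W550.B Pool.Agent.H447 Pool.Agent.H281R3.HT

variable {k : Type u} [Field k] {𝒱 : VarClass k} {ops : CycleOps 𝒱}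
  {W : WeilCohomology.{u, v} ops} {X Y Q : 𝒱.Obj} {L : Subfield W.K} {τ : L →+* L}

/-- The cycle `z` of codimension `j` on `X` is numerically trivial. -/
def IsNumTrivial (ops : CycleOps 𝒱) (X : 𝒱.Obj) (j : ℕ) (z : X.Cycles) : Prop :=
  X.IsCyc j z ∧ ∀ w, X.IsCyc (X.dim - j) w → X.V.degCycle (ops.mul z w) = 0

/-- The pairing of the class of a numerically trivial cycle with a combination of algebraic
classes vanishes. -/
lemma IsNumTrivial.tr_span {j : ℕ} (hj : j ≤ Y.dim) {z : Y.Cycles} (hz : IsNumTrivial ops Y j z)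
    {c : ℤ} {u : W.H Y} (hu : u ∈ spanCycles W Y c) : W.tr Y (W.cl Y z * u) = 0 := by
  by_cases hdeg : (j : ℤ) + c = Y.dim
  · induction hu using Submodule.span_induction with
    | mem u hu =>
      obtain ⟨p, hp, w, hw, rfl⟩ := hu
      obtain rfl : p = Y.dim - j := by omega
      have h1 := ops.mul_mem hz.1 hw
      rw [show j + (Y.dim - j) = Y.dim by omega] at h1
      rw [← W.cl_mul, W.tr_cl h1, hz.2 w hw, Rat.cast_zero]
    | zero => rw [mul_zero, map_zero]
    | add u v _ _ hu hv => rw [mul_add, map_add, hu, hv, add_zero]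
    | smul a u _ hu => rw [mul_smul_comm, map_smul, hu, smul_zero]
  · have h1 := spanCycles_deg hu
    by_cases hneg : c < 0
    · rw [grZ_of_neg (by omega)] at h1
      rw [(Submodule.mem_bot _).1 h1, mul_zero, map_zero]
    · obtain ⟨m, hm⟩ := Int.eq_ofNat_of_zero_le (show 0 ≤ c by omega)
      rw [hm, show (2 * ((m : ℕ) : ℤ)) = ((2 * m : ℕ) : ℤ) by push_cast; ring, grZ_natCast] at h1
      exact W.tr_eq_zero (W.mul_mem (W.cl_mem hz.1) h1) (by omega)

/-- Rational correspondences of degree zero preserve numerically trivial cycles. -/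
lemma IsNumTrivial.image {j : ℕ} (hj : j ≤ Y.dim) {z : Y.Cycles} (hz : IsNumTrivial ops Y j z)
    {y : Module.End W.K (W.H Y)} (hy : ROp W Y 0 y) :
    ∃ z', IsNumTrivial ops Y j z' ∧ W.cl Y z' = y (W.cl Y z) := by
  obtain ⟨c, hc, rfl⟩ := Pool.Agent.H447.exists_of_rop (p := Y.dim) (by simp) hy
  refine ⟨ops.push (snd Y Y) (ops.mul c (ops.pull (fst Y Y) z)), ⟨?_, ?_⟩, ?_⟩
  · apply ops.push_mem _ (ops.mul_mem hc (ops.pull_mem _ hz.1))
    rw [dim_prod]
    omega
  · intro w hw
    have h0 : Y.IsCyc j (ops.push (snd Y Y) (ops.mul c (ops.pull (fst Y Y) z))) := by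
      apply ops.push_mem _ (ops.mul_mem hc (ops.pull_mem _ hz.1))
      rw [dim_prod]
      omega
    have h1 := ops.mul_mem h0 hw
    rw [show j + (Y.dim - j) = Y.dim by omega] at h1
    have h2 : Y.IsCyc (Y.dim - j)
        (ops.push (snd Y Y) (ops.mul (ops.pull (swap Y Y) c) (ops.pull (fst Y Y) w))) := by
      apply ops.push_mem _ (ops.mul_mem (ops.pull_mem _ hc) (ops.pull_mem _ hw))
      rw [dim_prod]
      omega
    have h3 := ops.mul_mem hz.1 h2
    rw [show j + (Y.dim - j) = Y.dim by omega] at h3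
    have h4 : W.tr Y (W.cl Y (ops.mul (ops.push (snd Y Y) (ops.mul c
        (ops.pull (fst Y Y) z))) w)) = W.tr Y (W.cl Y (ops.mul z (ops.push (snd Y Y)
          (ops.mul (ops.pull (swap Y Y) c) (ops.pull (fst Y Y) w))))) := by
      rw [W.cl_mul, W.cl_mul, W.cl_push, W.cl_push, W.cl_mul, W.cl_mul, W.cl_pull, W.cl_pull,
        W.cl_pull, ← corr_apply, ← corr_apply]
      exact tr_corr_swap (W.cl_mem hc) _ _
    rw [W.tr_cl h1, W.tr_cl h3, hz.2 _ h2] at h4
    exact_mod_cast h4
  · rw [W.cl_push, W.cl_mul, W.cl_pull, corr_apply]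

/-- **Numerically trivial cycles do not meet a block and its conjugate.** -/
lemma isotropy {ι : Type*} [Fintype ι] {e e' et : ι → Module.End W.K (W.H Q)} {m : ι → ℤ}
    (h : IsFrm W τ Q e e' et m) {δ : ℤ} {U : W.H Y →ₗ[W.K] W.H Q} (hU : U ∈ KOp W Y Q δ)
    {j : ℕ} (hj : j ≤ Y.dim) {z z' : Y.Cycles} (hz : IsNumTrivial ops Y j z)
    (hz' : IsNumTrivial ops Y j z') (i : ι) (h1 : e i (U (W.cl Y z)) ≠ 0)
    (h2 : e' i (U (W.cl Y z')) ≠ 0) : False := by
  set a := e i (U (W.cl Y z)) with ha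
  set b := e' i (U (W.cl Y z')) with hb
  obtain ⟨y, hy⟩ : ∃ y, W.tr Q (a * y) ≠ 0 := by
    by_contra hcon
    push Not at hcon
    exact h1 (W.nondeg a hcon)
  obtain ⟨A, hA⟩ := Pool.Agent.H914.exists_end (K := W.K) h2 y
  have hw : (et i * A * e' i) (U (W.cl Y z')) = et i y := by
    simp only [Module.End.mul_apply]
    rw [← hb, hA]
  have hspan : (et i * A * e' i) (U (W.cl Y z')) ∈ spanCycles W Q ((j : ℤ) + δ + m i) := by
    have h3 : W.cl Y z' ∈ spanCycles W Y (j : ℤ) := Submodule.subset_span ⟨j, rfl, z', hz'.1, rfl⟩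
    exact KOp.map_span (h.alg i A) (KOp.map_span hU h3)
  rw [hw] at hspan
  obtain ⟨Ut, hUt, hadj⟩ := KOp.exists_adjoint hU
  have h5 := KOp.map_span hUt hspan
  have h6 := hz.tr_span (W := W) hj h5
  rw [← hadj, ← h.adj, ← ha] at h6
  exact hy h6

/-- Injectivity with coefficients kills numerically trivial cycles if there is a suitable twisted
pair of operators. -/
theorem eq_zero_of_pair {j : ℕ} (hj : j ≤ Y.dim) (hI : InjectiveOver W (L : Set W.K) Y j)
    {Φ Ψ : Module.End W.K (W.H Y)} (h : LRel W τ Y Φ Ψ) {z : Y.Cycles}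
    (hz : IsNumTrivial ops Y j z) (h2 : Ψ (W.cl Y z) = 0) : Φ (W.cl Y z) = 0 := by
  classical
  obtain ⟨m, c, y, hy, rfl, rfl⟩ := exists_rep h
  choose x hx hxcl using fun r => hz.image (W := W) hj (hy r)
  obtain ⟨δ, g, q, hq, hind⟩ := exists_rat_basis (K := W.K) (fun r => W.cl Y (x r))
  have hindQ : IndependentOver W (Set.range ((↑) : ℚ → W.K)) (fun k => x (g k)) := by
    intro b hb hb0
    choose r hr using hb
    have h3 := hind r (by
      rw [← hb0]
      exact Finset.sum_congr rfl fun k _ => by rw [hr])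
    funext k
    rw [← hr, h3, Pi.zero_apply, Pi.zero_apply, Rat.cast_zero]
  have hindL := hI δ (fun k => x (g k)) (fun k => (hx _).1) hindQ
  have hsum : ∀ b : Fin m → W.K, ∑ r, b r • y r (W.cl Y z) =
      ∑ k, (∑ r, b r * ((q r k : ℚ) : W.K)) • W.cl Y (x (g k)) := by
    intro b
    simp only [Finset.sum_smul]
    rw [Finset.sum_comm]
    refine Finset.sum_congr rfl fun r _ => ?_
    have h4 := hq r
    simp only [hxcl] at h4 ⊢
    rw [h4, Finset.smul_sum]
    refine Finset.sum_congr rfl fun k _ => ?_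
    rw [mul_smul]
  have hcoef : ∀ k, ∑ r, τ (c r) * ((q r k : ℚ) : L) = 0 := by
    have h3 := hindL (fun k => ((∑ r, τ (c r) * ((q r k : ℚ) : L) : L) : W.K))
      (fun k => (∑ r, τ (c r) * ((q r k : ℚ) : L) : L).2) (by
        have h5 := hsum (fun r => (τ (c r) : W.K))
        simp only [LinearMap.sum_apply, LinearMap.smul_apply] at h2
        rw [h2] at h5
        rw [h5]
        refine Finset.sum_congr rfl fun k _ => ?_
        congr 1
        push_cast
        rfl)
    intro k
    exact Subtype.ext (congrFun h3 k)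
  have hcoef' : ∀ k, ∑ r, c r * ((q r k : ℚ) : L) = 0 := by
    intro k
    have h3 : τ (∑ r, c r * ((q r k : ℚ) : L)) = 0 := by
      rw [map_sum, ← hcoef k]
      exact Finset.sum_congr rfl fun r _ => by rw [map_mul, map_ratCast]
    rwa [map_eq_zero] at h3
  simp only [LinearMap.sum_apply, LinearMap.smul_apply]
  rw [hsum (fun r => (c r : W.K))]
  refine Finset.sum_eq_zero fun k _ => ?_
  have h3 := congrArg (fun a : L => (a : W.K)) (hcoef' k)
  push_cast at h3
  rw [h3, zero_smul]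

/-- Injectivity with coefficients in the fixed field of a set of conjugations implies injectivity
with coefficients in the larger field. -/
theorem injectiveOver_of_fixed (C : Set (Conjugation W)) (hC : ∀ σ ∈ C, ∀ a ∈ L, σ.τ a ∈ L)
    {j : ℕ} (h : InjectiveOver W {a | a ∈ L ∧ ∀ σ ∈ C, σ.τ a = a} Y j) :
    InjectiveOver W (L : Set W.K) Y j := by
  intro n z hz hind c hcL hc
  by_contra hc0
  obtain ⟨c', h1, h2, h3, h4⟩ := exists_fixed_relation L ((fun σ : Conjugation W => σ.τ) '' C) (by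
      rintro _ ⟨σ, hσ, rfl⟩ a ha
      exact hC σ hσ a ha) (fun i => W.cl Y (z i)) (by
      rintro _ ⟨σ, hσ, rfl⟩ b hb
      have h0 : σ.σ Y 0 = 0 := by
        have := (σ.isConjugation Y).smul 0 0
        rwa [smul_zero, map_zero, zero_smul] at this
      have hsum : ∀ s : Finset (Fin n), σ.σ Y (∑ i ∈ s, b i • W.cl Y (z i)) =
          ∑ i ∈ s, σ.τ (b i) • W.cl Y (z i) := by
        intro s
        induction s using Finset.induction_on with
        | empty => rw [Finset.sum_empty, Finset.sum_empty, h0]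
        | insert a s ha ih =>
          rw [Finset.sum_insert ha, Finset.sum_insert ha, (σ.isConjugation Y).add,
            (σ.isConjugation Y).smul, ih, σ.cl Y]
      rw [← hsum, hb, h0]) hcL hc hc0
  exact h4 (h n z hz hind c' (fun i => ⟨h1 i, fun σ hσ => h2 σ.τ ⟨σ, hσ, rfl⟩ i⟩) h3)

end Pool.Agent.Y146.InjL
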