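import Pool.Agent.Y146.InjL.Defs
import Pool.Agent.W550.B.Frame

/-!
# Twisted pairs of operators with coefficients in a subfield
-/

open CategoryTheory AlgebraicGeometry Finset TensorProduct

universe u v w

namespace Pool.Agent.Y146.InjL

open Pool.Agent.H914 Pool.Agent.H914.VarClass Pool.Agent.H914.VarClass.Obj
  Pool.Agent.H914.WeilCohomology Pool.Agent.W550.B

variable {k : Type u} [Field k] {𝒱 : VarClass k} {ops : CycleOps 𝒱}
  {W : WeilCohomology.{u, v} ops} {X Y Z Q : 𝒱.Obj}

/-- Pairs of linear combinations with coefficients in `L` of rational algebraic correspondences of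
degree zero, with the same correspondences, and coefficients related by the endomorphism `τ`. -/
def LRel (W : WeilCohomology.{u, v} ops) {L : Subfield W.K} (τ : L →+* L) (X : 𝒱.Obj)
    (φ ψ : Module.End W.K (W.H X)) : Prop :=
  (φ, ψ) ∈ AddSubmonoid.closure {x : Module.End W.K (W.H X) × Module.End W.K (W.H X) |
    ∃ (c : L) (y : Module.End W.K (W.H X)), ROp W X 0 y ∧
      x = ((c : W.K) • y, (τ c : W.K) • y)}

namespace LRel

variable {L : Subfield W.K} {τ : L →+* L} {φ ψ φ' ψ' : Module.End W.K (W.H X)}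

lemma of (c : L) {y : Module.End W.K (W.H X)} (hy : ROp W X 0 y) :
    LRel W τ X ((c : W.K) • y) ((τ c : W.K) • y) := AddSubmonoid.subset_closure ⟨c, y, hy, rfl⟩

lemma rat {y : Module.End W.K (W.H X)} (hy : ROp W X 0 y) : LRel W τ X y y := by
  have := of (τ := τ) 1 hy
  rwa [map_one, L.coe_one, one_smul] at this

lemma add (h : LRel W τ X φ ψ) (h' : LRel W τ X φ' ψ') : LRel W τ X (φ + φ') (ψ + ψ') :=
  AddSubmonoid.add_mem _ h h'

lemma zero : LRel W τ X 0 0 := AddSubmonoid.zero_mem _

/-- Induction. -/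
lemma induction {p : Module.End W.K (W.H X) → Module.End W.K (W.H X) → Prop}
    (h0 : p 0 0) (hadd : ∀ a b c d, p a b → p c d → p (a + c) (b + d))
    (hgen : ∀ (c : L) y, ROp W X 0 y → p ((c : W.K) • y) ((τ c : W.K) • y))
    (h : LRel W τ X φ ψ) : p φ ψ := by
  have key : ∀ x ∈ AddSubmonoid.closure {x : Module.End W.K (W.H X) × Module.End W.K (W.H X) |
      ∃ (c : L) (y : Module.End W.K (W.H X)), ROp W X 0 y ∧
        x = ((c : W.K) • y, (τ c : W.K) • y)}, p x.1 x.2 := by
    intro x hx
    induction hx using AddSubmonoid.closure_induction with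
    | mem x hx =>
      obtain ⟨c, y, hy, rfl⟩ := hx
      exact hgen c y hy
    | zero => exact h0
    | add x y _ _ hx hy => exact hadd _ _ _ _ hx hy
  exact key _ h

lemma smul (c : L) (h : LRel W τ X φ ψ) : LRel W τ X ((c : W.K) • φ) ((τ c : W.K) • ψ) := by
  refine induction (p := fun φ ψ => LRel W τ X ((c : W.K) • φ) ((τ c : W.K) • ψ)) ?_ ?_ ?_ h
  · rw [smul_zero, smul_zero]; exact zero
  · intro a b a' b' h1 h2
    rw [smul_add, smul_add]; exact h1.add h2
  · intro d y hy
    have h1 := of (τ := τ) (c * d) hy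
    rw [map_mul, L.coe_mul, L.coe_mul] at h1
    rw [smul_smul, smul_smul]
    exact h1

lemma sum {ι : Type*} (s : Finset ι) {φ ψ : ι → Module.End W.K (W.H X)}
    (h : ∀ i ∈ s, LRel W τ X (φ i) (ψ i)) : LRel W τ X (∑ i ∈ s, φ i) (∑ i ∈ s, ψ i) := by
  classical
  induction s using Finset.induction_on with
  | empty => rw [Finset.sum_empty, Finset.sum_empty]; exact zero
  | insert a s ha ih =>
    rw [Finset.sum_insert ha, Finset.sum_insert ha]
    exact (h a (Finset.mem_insert_self _ _)).add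
      (ih (fun i hi => h i (Finset.mem_insert_of_mem hi)))

/-- Twisted pairs of polynomials in a rational correspondence. -/
lemma aeval {f : Module.End W.K (W.H X)} (hf : ROp W X 0 f) (g : Polynomial L) :
    LRel W τ X (Polynomial.aeval f (g.map L.subtype))
      (Polynomial.aeval f ((g.map τ).map L.subtype)) := by
  induction g using Polynomial.induction_on' with
  | add p q hp hq =>
    rw [Polynomial.map_add, Polynomial.map_add, Polynomial.map_add, map_add, map_add]
    exact hp.add hq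
  | monomial n c =>
    rw [Polynomial.map_monomial, Polynomial.map_monomial, Polynomial.map_monomial,
      Polynomial.aeval_monomial, Polynomial.aeval_monomial,
      ← Algebra.smul_def, ← Algebra.smul_def]
    apply of
    exact rop_opAlg.cast (rop_opAlg.pow hf n) (by ring)

lemma mem_left (h : LRel W τ X φ ψ) : φ ∈ KOp W X X 0 := by
  refine induction (p := fun φ _ => φ ∈ KOp W X X 0) ?_ ?_ ?_ h
  · exact Submodule.zero_mem _
  · intro a _ c _ ha hc
    exact Submodule.add_mem _ ha hc
  · intro c y hy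
    exact Submodule.smul_mem _ _ (mem_KS_iff.1 (Submodule.subset_span hy))

lemma mem_right (h : LRel W τ X φ ψ) : ψ ∈ KOp W X X 0 := by
  refine induction (p := fun _ ψ => ψ ∈ KOp W X X 0) ?_ ?_ ?_ h
  · exact Submodule.zero_mem _
  · intro _ b _ d hb hd
    exact Submodule.add_mem _ hb hd
  · intro c y hy
    exact Submodule.smul_mem _ _ (mem_KS_iff.1 (Submodule.subset_span hy))

end LRel

lemma LRel.ext {L : Subfield W.K} {τ : L →+* L} {φ ψ : Module.End W.K (W.H Y)}
    {φ' ψ' : Module.End W.K (W.H Z)} (h : LRel W τ Y φ ψ) (h' : LRel W τ Z φ' ψ') :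
    LRel W τ (Y.prod Z) (extOp W φ φ') (extOp W ψ ψ') := by
  refine induction (p := fun φ ψ => LRel W τ (Y.prod Z) (extOp W φ φ') (extOp W ψ ψ'))
    ?_ ?_ ?_ h
  · rw [extOp_zero_left, extOp_zero_left]; exact zero
  · intro a b a' b' h1 h2
    rw [extOp_add_left, extOp_add_left]; exact h1.add h2
  · intro c y hy
    rw [extOp_smul_left, extOp_smul_left]
    apply smul
    refine induction (p := fun φ' ψ' => LRel W τ (Y.prod Z) (extOp W y φ') (extOp W y ψ'))
      ?_ ?_ ?_ h'
    · rw [extOp_zero_right]; exact zero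
    · intro a b a' b' h1 h2
      rw [extOp_add_right, extOp_add_right]; exact h1.add h2
    · intro d z hz
      rw [extOp_smul_right, extOp_smul_right]
      exact of _ (rop_ext hy hz)

/-- Twisted pairs are given by families of rational correspondences. -/
lemma exists_rep {L : Subfield W.K} {τ : L →+* L} {φ ψ : Module.End W.K (W.H X)}
    (h : LRel W τ X φ ψ) :
    ∃ (m : ℕ) (c : Fin m → L) (y : Fin m → Module.End W.K (W.H X)), (∀ r, ROp W X 0 (y r)) ∧
      φ = ∑ r, (c r : W.K) • y r ∧ ψ = ∑ r, (τ (c r) : W.K) • y r := by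
  refine LRel.induction (p := fun φ ψ => ∃ (m : ℕ) (c : Fin m → L)
    (y : Fin m → Module.End W.K (W.H X)), (∀ r, ROp W X 0 (y r)) ∧
      φ = ∑ r, (c r : W.K) • y r ∧ ψ = ∑ r, (τ (c r) : W.K) • y r) ?_ ?_ ?_ h
  · exact ⟨0, Fin.elim0, Fin.elim0, fun r => r.elim0, by simp, by simp⟩
  · rintro a b a' b' ⟨m, c, y, hy, rfl, rfl⟩ ⟨m', c', y', hy', rfl, rfl⟩
    refine ⟨m + m', Fin.append c c', Fin.append y y', ?_, ?_, ?_⟩
    · intro r
      refine Fin.addCases (fun i => ?_) (fun i => ?_) r
      · rw [Fin.append_left]; exact hy i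
      · rw [Fin.append_right]; exact hy' i
    · rw [Fin.sum_univ_add]
      simp only [Fin.append_left, Fin.append_right]
    · rw [Fin.sum_univ_add]
      simp only [Fin.append_left, Fin.append_right]
  · intro c y hy
    exact ⟨1, fun _ => c, fun _ => y, fun _ => hy, by simp, by simp⟩

/-- Twisted pairs on a direct summand. -/
lemma LRel_sandwich {L : Subfield W.K} {τ : L →+* L} {a b : ℕ} (hab : a + b = Y.dim + Q.dim)
    {p : (Y.prod Q).Cycles} {q : (Q.prod Y).Cycles} (hp : (Y.prod Q).IsCyc a p)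
    (hq : (Q.prod Y).IsCyc b q) {φ ψ : Module.End W.K (W.H Q)} (h : LRel W τ Q φ ψ) :
    LRel W τ Y (W.corr (W.cl _ q) ∘ₗ φ ∘ₗ W.corr (W.cl _ p))
      (W.corr (W.cl _ q) ∘ₗ ψ ∘ₗ W.corr (W.cl _ p)) := by
  refine LRel.induction (p := fun φ ψ => LRel W τ Y
    (W.corr (W.cl _ q) ∘ₗ φ ∘ₗ W.corr (W.cl _ p))
      (W.corr (W.cl _ q) ∘ₗ ψ ∘ₗ W.corr (W.cl _ p))) ?_ ?_ ?_ h
  · rw [LinearMap.zero_comp, LinearMap.comp_zero]
    exact LRel.zero
  · intro x y x' y' h1 h2
    rw [LinearMap.add_comp, LinearMap.comp_add, LinearMap.add_comp, LinearMap.comp_add]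
    exact h1.add h2
  · intro c y hy
    rw [LinearMap.smul_comp, LinearMap.comp_smul, LinearMap.smul_comp, LinearMap.comp_smul]
    apply LRel.of
    obtain ⟨z, hz, rfl⟩ := Pool.Agent.H447.exists_of_rop (p := Q.dim) (by simp) hy
    have h1 : (Y.prod Q).IsCyc a (compCyc ops p z) := compCyc_mem hp hz (by omega)
    rw [← corr_compCyc W hz, ← corr_compCyc W hq]
    exact Pool.Agent.H447.rop_corr (p := Y.dim) (by simp) (compCyc_mem h1 hq (by omega))

/-- A decomposition of the identity into twisted operators with algebraic duals. -/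
structure IsFrm (W : WeilCohomology.{u, v} ops) {L : Subfield W.K} (τ : L →+* L) (Y : 𝒱.Obj)
    {ι : Type*} [Fintype ι] (e e' et : ι → Module.End W.K (W.H Y)) (m : ι → ℤ) : Prop where
  sum : ∑ i, e i = 1
  twist : ∀ i, LRel W τ Y (e i) (e' i)
  adj : ∀ i a b, W.tr Y (e i a * b) = W.tr Y (a * et i b)
  alg : ∀ i (A : Module.End W.K (W.H Y)), et i * A * e' i ∈ KOp W Y Y (m i)

/-- The variety has such a decomposition. -/
def HasFrm (W : WeilCohomology.{u, v} ops) {L : Subfield W.K} (τ : L →+* L) (Y : 𝒱.Obj) : Prop :=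
  ∃ (ι : Type) (_ : Fintype ι) (e e' et : ι → Module.End W.K (W.H Y)) (m : ι → ℤ),
    IsFrm W τ Y e e' et m

/-- The index set may be arbitrary. -/
lemma IsFrm.hasFrm {L : Subfield W.K} {τ : L →+* L} {ι : Type*} [Fintype ι]
    {e e' et : ι → Module.End W.K (W.H Y)} {m : ι → ℤ}
    (h : IsFrm W τ Y e e' et m) : HasFrm W τ Y := by
  classical
  set c := Fintype.equivFin ι with hc
  refine ⟨Fin (Fintype.card ι), inferInstance, fun i => e (c.symm i), fun i => e' (c.symm i),
    fun i => et (c.symm i), fun i => m (c.symm i), ?_, fun i => h.twist _, fun i => h.adj _,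
    fun i => h.alg _⟩
  rw [← h.sum]
  exact Equiv.sum_comp c.symm e

/-- The decompositions are stable under products. -/
theorem HasFrm.prod {L : Subfield W.K} {τ : L →+* L} (hY : HasFrm W τ Y) (hZ : HasFrm W τ Z) :
    HasFrm W τ (Y.prod Z) := by
  classical
  obtain ⟨ι, _, e, e', et, m, h⟩ := hY
  obtain ⟨ι', _, f, f', ft, m', h'⟩ := hZ
  refine ⟨ι × ι', inferInstance, fun i => extOp W (e i.1) (f i.2),
    fun i => extOp W (e' i.1) (f' i.2), fun i => extOp W (et i.1) (ft i.2),
    fun i => m i.1 + m' i.2, ?_, ?_, ?_, ?_⟩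
  · rw [Fintype.sum_prod_type]
    have : ∀ i, ∑ j, extOp W (e i) (f j) = extOp W (e i) 1 := by
      intro i
      rw [← h'.sum, extOp_sum']
    rw [Finset.sum_congr rfl (fun i _ => this i), ← extOp_sum, h.sum, extOp_one]
  · intro i
    exact (h.twist i.1).ext (h'.twist i.2)
  · intro i a b
    exact adj_ext (h.twist _).mem_left (h.adj _) (h'.twist _).mem_left (h'.adj _) a b
  · intro i A
    refine extOp_induction (p := fun A => extOp W (et i.1) (ft i.2) * A *
      extOp W (e' i.1) (f' i.2) ∈ KOp W (Y.prod Z) (Y.prod Z) (m i.1 + m' i.2)) ?_ ?_ ?_ A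
    · rw [mul_zero, zero_mul]; exact Submodule.zero_mem _
    · intro A B hA hB
      rw [mul_add, add_mul]; exact Submodule.add_mem _ hA hB
    · intro φ ψ
      rw [extOp_mul, extOp_mul]
      exact KOp.ext (h.alg i.1 φ) (h'.alg i.2 ψ)

/-- Products of varieties with decompositions. -/
theorem hasFrm_of_isProductOf {L : Subfield W.K} {τ : L →+* L} {S : Set 𝒱.Obj}
    (hS : ∀ X ∈ S, HasFrm W τ X) {Q : 𝒱.Obj} (hQ : IsProductOf S Q) : HasFrm W τ Q := by
  induction hQ with
  | base h => exact hS _ h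
  | prod _ _ h1 h2 => exact h1.prod h2

end Pool.Agent.Y146.InjL
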