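import Pool.Agent.H914R2.HodgeDefs
import Pool.Agent.H914R2.KDefs
import Pool.Agent.H281R3.HT.FDef
import Pool.Agent.W550.B.Defs

/-!
# Varieties whose square satisfies the Tate conjecture, and injectivity with coefficients
-/

open CategoryTheory AlgebraicGeometry

universe u v

namespace Pool.Agent.Y146.InjL

section Alg

/-- A subfield `L` of the field `K` with an endomorphism `τ` (in the intended use: a number field
with the complex conjugation). -/
structure ConjField (K : Type*) [Field K] where
  /-- the subfield -/
  L : Subfield K
  /-- the endomorphism -/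
  τ : L →+* L

variable {K A : Type*} [Field K] [AddCommGroup A] [Module K A]

/-- The space is the sum of the eigenspaces of `F` for the eigenvalues in `L`. -/
def DiagonalizableOver (T : ConjField K) (F : Module.End K A) : Prop :=
  ⨆ α : T.L, F.eigenspace α = ⊤

/-- The Riemann hypothesis: all eigenvalues `α` in `L` of `F` on `gr i` satisfy
`τ(α) α = q ^ i`. -/
def WeightsOver (T : ConjField K) (gr : ℕ → Submodule K A) (F : Module.End K A) (q : ℕ) : Prop :=
  ∀ (i : ℕ) (α : T.L) (x : A), x ∈ gr i → x ≠ 0 → F x = (α : K) • x → T.τ α * α = (q : T.L) ^ i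

/-- The functional `t` is multiplied by `q ^ n` by `F`. -/
def ScaledBy (t : A →ₗ[K] K) (F : Module.End K A) (q n : ℕ) : Prop :=
  ∀ a, t (F a) = (q : K) ^ n * t a

/-- The elements of `V` on which `F` acts as the multiplication by `q ^ n` lie in `T`. -/
def EigenvectorsIn (V : Submodule K A) (F : Module.End K A) (q n : ℕ) (T : Submodule K A) : Prop :=
  ∀ x ∈ V, F x = (q : K) ^ n • x → x ∈ T

end Alg

open Pool.Agent.H914 Pool.Agent.H914.VarClass Pool.Agent.H914.VarClass.Obj
  Pool.Agent.H914.WeilCohomology Pool.Agent.H281R3.HT Pool.Agent.W550.B

variable {k : Type u} [Field k] {𝒱 : VarClass k} {ops : CycleOps 𝒱}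

/-- The endomorphism `F` of `X` has the properties of the Frobenius endomorphism, over the finite
field with `q` elements, of a variety `X` such that the Tate conjecture holds for `X × X`, and the
eigenvalues of `F` lie in the subfield `L` of the coefficient field; the endomorphism `τ` of `L`
plays the role of the complex conjugation. -/
structure HasTateSquare (W : WeilCohomology.{u, v} ops) (T : ConjField W.K) (X : 𝒱.Obj)
    (F : X ⟶ X) (q : ℕ) : Prop where
  /-- the number `q` is at least two -/
  one_lt : 1 < q
  /-- the endomorphism `F` has degree `q ^ dim X` -/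
  degree : ScaledBy (W.tr X) (pullOp W F) q X.dim
  /-- the cohomology is the sum of the eigenspaces of `F` for eigenvalues in `L` -/
  diagonalizable : DiagonalizableOver T (pullOp W F)
  /-- the Riemann hypothesis -/
  weights : WeightsOver T (W.gr X) (pullOp W F) q
  /-- the Tate conjecture for `X × X`: the classes of degree `2 j` on which `F × F` acts as the
  multiplication by `q ^ j` are linear combinations of classes of algebraic cycles -/
  tate : ∀ j : ℕ, EigenvectorsIn (W.gr (X.prod X) (2 * j)) (pullOp W (squareMap F)) q j
    (spanCycles W (X.prod X) j)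

/-- There is no non-trivial linear relation with coefficients in the set `M` between the classes
of the cycles `z i`. -/
def IndependentOver (W : WeilCohomology.{u, v} ops) (M : Set W.K) {X : 𝒱.Obj} {n : ℕ}
    (z : Fin n → X.Cycles) : Prop :=
  ∀ c : Fin n → W.K, (∀ i, c i ∈ M) → ∑ i, c i • W.cl X (z i) = 0 → c = 0

/-- The cycle class map `M ⊗ A^j(X) → H^(2j)(X)` is injective, where `A^j(X)` is the space of the
cycles of codimension `j`, with rational coefficients, modulo homological equivalence: cycles of
codimension `j` whose classes are linearly independent over the rational numbers have classes which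
are linearly independent over `M`. -/
def InjectiveOver (W : WeilCohomology.{u, v} ops) (M : Set W.K) (X : 𝒱.Obj) (j : ℕ) : Prop :=
  ∀ (n : ℕ) (z : Fin n → X.Cycles), (∀ i, X.IsCyc j (z i)) →
    IndependentOver W (Set.range ((↑) : ℚ → W.K)) z → IndependentOver W M z

/-- The conjugations in the set `C` map `L` to itself. -/
def Preserve {W : WeilCohomology.{u, v} ops} (C : Set (Conjugation W)) (T : ConjField W.K) :
    Prop := ∀ σ ∈ C, ∀ a ∈ T.L, σ.τ a ∈ T.L

/-- The elements of `L` which are fixed by all conjugations in the set `C`. -/
def fixedBy {W : WeilCohomology.{u, v} ops} (C : Set (Conjugation W)) (T : ConjField W.K) :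
    Set W.K := {a | a ∈ T.L ∧ ∀ σ ∈ C, σ.τ a = a}

end Pool.Agent.Y146.InjL
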