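import Pool.Agent.Y146.InjL.Main
import Pool.Agent.W550.B.Defs

/-!
# Numerical and homological equivalence, and injectivity with coefficients in a number field
-/

open CategoryTheory AlgebraicGeometry Finset

universe u v w

namespace Pool.Agent.Y146.InjL

open Pool.Agent.H914 Pool.Agent.H914.VarClass Pool.Agent.H914.VarClass.Obj
  Pool.Agent.H914.WeilCohomology Pool.Agent.W550.B Pool.Agent.H447 Pool.Agent.H281R3.HT

variable {k : Type u} [Field k] {𝒱 : VarClass k} {ops : CycleOps 𝒱}
  {W : WeilCohomology.{u, v} ops} {X Y Q : 𝒱.Obj} {L : Subfield W.K} {τ : L →+* L}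

lemma cl_eq_zero_of_lt {j : ℕ} (hj : Y.dim < j) {z : Y.Cycles} (hz : Y.IsCyc j z) :
    W.cl Y z = 0 := by
  have h1 := W.cl_mem hz
  rw [W_hbd (2 * j) (by omega)] at h1
  exact (Submodule.mem_bot _).1 h1

/-- Numerical and homological equivalence for varieties whose cohomology is a direct summand of a
direct sum of twists of the cohomology of varieties with decompositions. -/
theorem homEqNumIn_of_summand {r : ℕ} {P : Fin r → 𝒱.Obj}
    (hP : ∀ l, HasFrm W τ (P l)) (u : ∀ l, (Y.prod (P l)).Cycles)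
    (v : ∀ l, ((P l).prod Y).Cycles) (huv : ∀ l, AreOpposite (u l) (v l)) {c : W.K} (hc : c ≠ 0)
    (hvu : ∀ x, ∑ l, cycMap W (v l) (cycMap W (u l) x) = c • x) {j : ℕ}
    (hI : InjectiveOver W (L : Set W.K) Y j) : HomEqNumIn W Y j := by
  classical
  intro z₀ hz₀ hnum
  by_cases hj : j ≤ Y.dim
  swap
  · exact cl_eq_zero_of_lt (by omega) hz₀
  have hz₀' : IsNumTrivial ops Y j z₀ := ⟨hz₀, hnum⟩
  choose ι fι e e' et m h using hP
  choose a b hab using huv
  have hU : ∀ l, cycMap W (u l) ∈ KOp W Y (P l) ((a l : ℤ) - Y.dim) := fun l =>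
    KOp.gen (p := a l) (by ring) (hab l).2.1
  set R : ∀ l, Finset (ι l) := fun l => univ.filter (fun i =>
    e l i (cycMap W (u l) (W.cl Y z₀)) ≠ 0) with hR
  have hR' : ∀ l i, i ∈ R l ↔ e l i (cycMap W (u l) (W.cl Y z₀)) ≠ 0 := by
    intro l i
    simp [hR]
  have hrel : LRel W τ Y (∑ l, ∑ i ∈ R l, cycMap W (v l) ∘ₗ e l i ∘ₗ cycMap W (u l))
      (∑ l, ∑ i ∈ R l, cycMap W (v l) ∘ₗ e' l i ∘ₗ cycMap W (u l)) := by
    refine LRel.sum _ fun l _ => LRel.sum _ fun i _ => ?_
    exact LRel_sandwich (hab l).1 (hab l).2.1 (hab l).2.2 ((h l).twist i)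
  have h0 := eq_zero_of_pair (W := W) hj hI hrel hz₀' (by
    simp only [LinearMap.sum_apply, LinearMap.comp_apply]
    refine Finset.sum_eq_zero fun l _ => Finset.sum_eq_zero fun i hi => ?_
    have h1 : e' l i (cycMap W (u l) (W.cl Y z₀)) = 0 := by
      by_contra hne'
      exact isotropy (h l) (hU l) hj hz₀' hz₀' i ((hR' l i).1 hi) hne'
    rw [h1, map_zero])
  simp only [LinearMap.sum_apply, LinearMap.comp_apply] at h0
  have h1 : ∀ l, ∑ i ∈ R l, cycMap W (v l) (e l i (cycMap W (u l) (W.cl Y z₀))) =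
      cycMap W (v l) (cycMap W (u l) (W.cl Y z₀)) := by
    intro l
    rw [← map_sum]
    congr 1
    rw [Finset.sum_subset (Finset.subset_univ (R l))]
    · rw [← LinearMap.sum_apply, (h l).sum, Module.End.one_apply]
    · intro i _ hi
      by_contra hne
      exact hi ((hR' l i).2 hne)
  rw [Finset.sum_congr rfl fun l _ => h1 l, hvu] at h0
  exact (smul_eq_zero.1 h0).resolve_left hc

/-- The cohomology of a dominated variety is a direct summand. -/
lemma exists_of_dominates (h : Dominates W Q Y) :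
    ∃ (u : (Y.prod Q).Cycles) (v : (Q.prod Y).Cycles) (c : W.K), AreOpposite u v ∧ c ≠ 0 ∧
      ∀ x, cycMap W v (cycMap W u x) = c • x := by
  obtain ⟨g, p, w, c, hw, hc, hpush⟩ := h
  by_cases h1 : (1 : W.H Y) = 0
  · refine ⟨0, 0, 1, ⟨Y.dim + Q.dim, 0, rfl, SmVar.IsCyc.zero _ _, SmVar.IsCyc.zero _ _⟩,
      one_ne_zero, fun x => ?_⟩
    rw [← mul_one x, h1, mul_zero]
    simp
  -- the codimension
  have hp : p + Y.dim = Q.dim := by
    have h2 := W.push_mem g (W.cl_mem hw)
    rw [hpush] at h2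
    have h3 : c • (1 : W.H Y) ≠ 0 := smul_ne_zero hc h1
    by_contra hne
    apply h3
    by_cases h0 : 0 ≤ ((2 * p : ℕ) : ℤ) + 2 * ((Y.dim : ℤ) - Q.dim)
    · obtain ⟨t, ht⟩ := Int.eq_ofNat_of_zero_le h0
      rw [ht, grZ_natCast] at h2
      have h4 : c • (1 : W.H Y) ∈ W.gr Y 0 := Submodule.smul_mem _ _ (W.one_mem Y)
      have h5 := proj_same (W.isInternal Y) h2
      rw [proj_ne (W.isInternal Y) h4 (by omega)] at h5
      exact h5.symm
    · rw [grZ_of_neg (by omega)] at h2
      exact (Submodule.mem_bot _).1 h2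
  refine ⟨ops.push (Obj.lift g (𝟙 Q)) Q.V.fundCycle, ops.push (Obj.lift (𝟙 Q) g) w, c,
    ⟨Y.dim, Q.dim, rfl, ?_, ?_⟩, hc, fun x => ?_⟩
  · apply ops.push_mem _ Q.V.fundCycle_mem
    change 0 + (Y.dim + Q.dim) = Y.dim + Q.dim
    omega
  · apply ops.push_mem _ hw
    change p + (Q.dim + Y.dim) = Q.dim + Q.dim
    omega
  · have e1 : Obj.lift g (𝟙 Q) ≫ snd Y Q = 𝟙 Q := Obj.lift_snd _ _
    have e2 : Obj.lift g (𝟙 Q) ≫ fst Y Q = g := Obj.lift_fst _ _
    have e3 : Obj.lift (𝟙 Q) g ≫ snd Q Y = g := Obj.lift_snd _ _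
    have e4 : Obj.lift (𝟙 Q) g ≫ fst Q Y = 𝟙 Q := Obj.lift_fst _ _
    rw [cycMap, cycMap, W.cl_push, W.cl_push, W.cl_fund, corr_apply,
      corr_apply, ← W.push_mul, ← W.push_comp, ← W.map_comp, e3, e4, ← W.push_mul, ← W.push_comp,
      ← W.map_comp, e1, e2, W.push_id, W.map_id, one_mul, W.push_mul, hpush, smul_mul_assoc,
      one_mul]

/-- If numerical and homological equivalence agree, cycles whose classes are linearly independent
over the rational numbers have classes which are linearly independent over all sets of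
coefficients. -/
theorem injectiveOver_of_homEqNumIn {j : ℕ} (M : Set W.K) (h : HomEqNumIn W Y j) :
    InjectiveOver W M Y j := by
  classical
  intro n z hz hind a _ ha
  by_cases hj : j ≤ Y.dim
  swap
  · have h1 := hind 1 (fun _ => ⟨1, Rat.cast_one⟩) (by
      refine Finset.sum_eq_zero fun i _ => ?_
      rw [cl_eq_zero_of_lt (by omega) (hz i), smul_zero])
    funext i
    exact absurd (congrFun h1 i) one_ne_zero
  -- the vectors of the intersection numbers
  set R : Submodule ℚ (Fin n → ℚ) := Submodule.span ℚ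
    {y | ∃ w, Y.IsCyc (Y.dim - j) w ∧ ∀ i, y i = Y.V.degCycle (ops.mul (z i) w)} with hR
  have hadd : j + (Y.dim - j) = Y.dim := by omega
  have hcyc : ∀ {x w : Y.Cycles}, Y.IsCyc j x → Y.IsCyc (Y.dim - j) w →
      Y.IsCyc Y.dim (ops.mul x w) := by
    intro x w hx hw
    have h1 := ops.mul_mem hx hw
    rwa [hadd] at h1
  have hRtop : R = ⊤ := by
    by_contra hne
    obtain ⟨f, hf, hRf⟩ := Submodule.exists_le_ker_of_lt_top R (lt_top_iff_ne_top.2 hne)
    set c : Fin n → ℚ := fun i => f (Pi.single i 1) with hc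
    have hfc : ∀ y, f y = ∑ i, y i * c i := by
      intro y
      have h1 : y = ∑ i, y i • (Pi.single i 1 : Fin n → ℚ) := by
        funext l
        simp [Pi.single_apply]
      conv_lhs => rw [h1]
      rw [map_sum]
      refine Finset.sum_congr rfl fun i _ => ?_
      rw [map_smul, smul_eq_mul]
    have hz' : Y.IsCyc j (∑ i, c i • z i) := by
      refine Finset.sum_induction _ (fun x => Y.IsCyc j x) (fun a b => SmVar.IsCyc.add)
        (SmVar.IsCyc.zero _ _) (fun i _ => ?_)
      exact SmVar.IsCyc.smul _ (hz i)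
    have h2 : W.cl Y (∑ i, c i • z i) = 0 := by
      refine h _ hz' fun w hw => ?_
      have h3 := W.tr_cl (hcyc hz' hw)
      rw [W.cl_mul, map_sum, Finset.sum_mul, map_sum] at h3
      have h4 : ∀ i, W.tr Y (W.cl Y (c i • z i) * W.cl Y w) =
          (((c i) * Y.V.degCycle (ops.mul (z i) w) : ℚ) : W.K) := by
        intro i
        rw [cl_smul, smul_mul_assoc, map_smul, ← W.cl_mul, W.tr_cl (hcyc (hz i) hw), smul_eq_mul,
          Rat.cast_mul]
      rw [Finset.sum_congr rfl fun i _ => h4 i, ← Rat.cast_sum] at h3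
      have h5 : ∑ i, c i * Y.V.degCycle (ops.mul (z i) w) = 0 := by
        have h6 : (fun i => Y.V.degCycle (ops.mul (z i) w)) ∈ R :=
          Submodule.subset_span ⟨w, hw, fun i => rfl⟩
        have h7 := hRf h6
        rw [LinearMap.mem_ker, hfc] at h7
        rw [← h7]
        exact Finset.sum_congr rfl fun i _ => mul_comm _ _
      rw [h5] at h3
      exact_mod_cast h3.symm
    have h3 := hind (fun i => ((c i : ℚ) : W.K)) (fun i => ⟨c i, rfl⟩) (by
      rw [← h2, map_sum]
      exact Finset.sum_congr rfl fun i _ => (cl_smul _ _ _).symm)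
    apply hf
    apply LinearMap.ext
    intro y
    rw [hfc]
    refine Finset.sum_eq_zero fun i _ => ?_
    have h4 : c i = 0 := by
      have := congrFun h3 i
      simpa using this
    rw [h4, mul_zero]
  have h1 : ∀ y ∈ R, ∑ i, a i * ((y i : ℚ) : W.K) = 0 := by
    intro y hy
    induction hy using Submodule.span_induction with
    | mem y hy =>
      obtain ⟨w, hw, hy⟩ := hy
      have h2 := congrArg (fun x => W.tr Y (x * W.cl Y w)) ha
      simp only [zero_mul, map_zero, Finset.sum_mul, map_sum] at h2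
      rw [← h2]
      refine Finset.sum_congr rfl fun i _ => ?_
      rw [smul_mul_assoc, map_smul, ← W.cl_mul, W.tr_cl (hcyc (hz i) hw), hy i, smul_eq_mul]
    | zero => simp
    | add x y _ _ hx hy =>
      simp only [Pi.add_apply, Rat.cast_add, mul_add, Finset.sum_add_distrib, hx, hy, add_zero]
    | smul r y _ hy =>
      simp only [Pi.smul_apply, smul_eq_mul, Rat.cast_mul]
      have : ∀ i, a i * (((r : ℚ) : W.K) * ((y i : ℚ) : W.K)) =
          ((r : ℚ) : W.K) * (a i * ((y i : ℚ) : W.K)) := fun i => by ring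
      simp only [this, ← Finset.mul_sum, hy, mul_zero]
  funext i
  have h2 := h1 (Pi.single i 1) (by rw [hRtop]; exact Submodule.mem_top)
  rw [Finset.sum_eq_single i] at h2
  · simpa using h2
  · intro l _ hl
    rw [Pi.single_apply, if_neg hl, Rat.cast_zero, mul_zero]
  · intro hi
    exact absurd (Finset.mem_univ _) hi

/-- **Numerical and homological equivalence agree if and only if the cycle class map is injective
with coefficients in the fixed field.** -/
theorem homEqNumIn_iff {T : ConjField W.K} {S : Set 𝒱.Obj}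
    (hS : ∀ X ∈ S, ∃ (F : X ⟶ X) (q : ℕ), HasTateSquare W T X F q)
    (C : Set (Conjugation W)) (hC : Preserve C T) (hY : IsGenerated W S Y) (j : ℕ) :
    HomEqNumIn W Y j ↔ InjectiveOver W (fixedBy C T) Y j := by
  refine ⟨injectiveOver_of_homEqNumIn _, fun hI' => ?_⟩
  have hI := injectiveOver_of_fixed C hC hI'
  have hS' : ∀ P ∈ S, HasFrm W T.τ P := by
    intro P hP
    obtain ⟨F, q, h⟩ := hS P hP
    exact h.isTateOver.hasFrm
  rcases hY with ⟨Q, hQ, hY⟩ | ⟨r, Q, hQ, u, v, huv, hvu⟩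
  · obtain ⟨u, v, c, huv, hc, hvu⟩ := exists_of_dominates hY
    refine homEqNumIn_of_summand (P := fun _ : Fin 1 => Q) (c := c)
      (fun _ => hasFrm_of_isProductOf hS' hQ) (fun _ => u) (fun _ => v) (fun _ => huv) hc ?_ hI
    intro x
    rw [Fin.sum_univ_one, hvu]
  · refine homEqNumIn_of_summand (c := 1) (fun l => hasFrm_of_isProductOf hS' (hQ l)) u v huv
      one_ne_zero ?_ hI
    intro x
    rw [hvu, one_smul]

end Pool.Agent.Y146.InjL
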